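import Pool.Agent.V11100.CQ.Walk

/-!
# Assembly: cleaning, gains, growth
-/

set_option autoImplicit false

namespace Pool.Agent.V11100.CQ

open Finset

variable {n : ℕ}

section
variable {H : Finset (En n)} {C : Finset (Pr n × Pr n)} {o : Bool → Pr n} {t : ℕ}

theorem exc_ge (F : Finset (En n)) : -2 * (F.card : ℤ) ≤ exc F := by
  have := vs_card_le F
  unfold exc; omega

theorem gains [NeZero n] (S : Setup H C o t) {a0 b0 : Pr n} (h0 : Cr C false a0 b0)
    (F0 : Finset (En n)) (hF : F0 ⊆ H) (ho : ∀ s, pv s (o s) ⊆ vs F0) (hb : pv true b0 ⊆ vs F0)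
    (hc0 : F0.card ≤ 8) (r M : ℕ) (hcount : 2 * n ^ 2 * ((3 * M) ^ 2) ^ r < (t - 1) ^ r) :
    ∀ m : ℕ, 8 + 8 * r * m + 4 * r ≤ M → ∃ F, F0 ⊆ F ∧ F ⊆ H ∧ F.card ≤ 8 + 8 * r * m ∧
      (m : ℤ) - 16 ≤ exc F
  | 0 => by
    intro _
    refine ⟨F0, subset_rfl, hF, by simpa using hc0, ?_⟩
    have := exc_ge F0
    push_cast
    omega
  | m + 1 => by
    intro hM
    have hM' : 8 + 8 * r * m + 4 * r ≤ M := by
      have : 8 * r * (m + 1) = 8 * r * m + 8 * r := by ring
      omega
    obtain ⟨F, f1, f2, f3, f4⟩ := gains S h0 F0 hF ho hb hc0 r M hcount m hM'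
    obtain ⟨F', g1, g2, g3, g4⟩ := gain S h0 F f2 (fun s => (ho s).trans (vs_mono f1))
      (hb.trans (vs_mono f1)) r M (by omega) hcount
    refine ⟨F', f1.trans g1, g2, ?_, ?_⟩
    · have : 8 * r * (m + 1) = 8 * r * m + 8 * r := by ring
      omega
    · push_cast
      omega

theorem grows [NeZero n] (S : Setup H C o t) {a0 b0 : Pr n} (h0 : Cr C false a0 b0)
    (F0 : Finset (En n)) (ho : ∀ s, pv s (o s) ⊆ vs F0) (hb : pv true b0 ⊆ vs F0)
    (M k : ℕ) (ht : (3 * M) ^ 2 < t) :
    ∀ (j : ℕ) (F : Finset (En n)), F0 ⊆ F → F ⊆ H → F.card + 4 * j ≤ M → (vs F).card ≤ k →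
      k ≤ (vs F).card + j → ∃ F', F ⊆ F' ∧ F' ⊆ H ∧ exc F ≤ exc F' ∧ k ≤ (vs F').card + 3 ∧
        (vs F').card ≤ k
  | 0, F => by
    intro _ h2 _ h4 h5
    exact ⟨F, subset_rfl, h2, le_rfl, by omega, h4⟩
  | j + 1, F => by
    intro h1 h2 h3 h4 h5
    by_cases hk : k ≤ (vs F).card + 3
    · exact ⟨F, subset_rfl, h2, le_rfl, hk, h4⟩
    · obtain ⟨F', g1, g2, g3, g4, g5, g6⟩ := grow S h0 F h2
        (fun s => (ho s).trans (vs_mono h1)) (hb.trans (vs_mono h1)) M (by omega) ht
      obtain ⟨F'', k1, k2, k3, k4, k5⟩ := grows S h0 F0 ho hb M k ht j F' (h1.trans g1) g2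
        (by omega) (by omega) (by omega)
      exact ⟨F'', g1.trans k1, k2, g4.trans k3, k4, k5⟩

theorem core [NeZero n] (S : Setup H C o t) {a0 b0 : Pr n} (h0 : Cr C false a0 b0)
    (hbase : Dom H false (o false) (o true)) (k m r M : ℕ) (hkn : k ≤ n + n + n)
    (hcount : 2 * n ^ 2 * ((3 * M) ^ 2) ^ r < (t - 1) ^ r) (ht : (3 * M) ^ 2 < t)
    (hM1 : 8 + 8 * r * m + 4 * r ≤ M) (hM2 : 8 + 8 * r * m + 4 * k ≤ M)
    (hk : 24 + 24 * r * m ≤ k) :
    ∃ X Y Z : Finset (Fin n), X.card + Y.card + Z.card = k ∧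
      k + m ≤ (H.filter (fun h => h.1 ∈ X ∧ h.2.1 ∈ Y ∧ h.2.2 ∈ Z)).card + 19 := by
  obtain ⟨y, d1, d2⟩ := hbase
  obtain ⟨y', d1', d2'⟩ := S.dom false a0 b0 h0
  set F0 := dent H false (o false) (o true) ∪ dent H false a0 b0 with hF0
  have e1 := dent_eq S.lat d1 d2
  have e2 := dent_eq S.lat d1' d2'
  have hF : F0 ⊆ H := union_subset dent_sub dent_sub
  have m1 : e false (o false).1 y (o true).1 ∈ F0 := by rw [hF0, e1]; simp
  have m2 : e false (o false).2 y (o true).2 ∈ F0 := by rw [hF0, e1]; simp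
  have m3 : e false a0.1 y' b0.1 ∈ F0 := by rw [hF0, e2]; simp
  have m4 : e false a0.2 y' b0.2 ∈ F0 := by rw [hF0, e2]; simp
  have ho : ∀ s, pv s (o s) ⊆ vs F0 := by
    intro s
    rw [pv_sub]
    cases s
    · exact ⟨(mem_vs_of m1).1, (mem_vs_of m2).1⟩
    · exact ⟨(mem_vs_of m1).2.2, (mem_vs_of m2).2.2⟩
  have hb : pv true b0 ⊆ vs F0 := by
    rw [pv_sub]
    exact ⟨(mem_vs_of m3).2.2, (mem_vs_of m4).2.2⟩
  have hc0 : F0.card ≤ 8 := by
    have h1 : F0.card ≤ (dent H false (o false) (o true)).card + (dent H false a0 b0).card :=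
      card_union_le _ _
    have h2 : (dent H false (o false) (o true)).card ≤ 2 := by rw [e1]; exact card_le_two
    have h3 : (dent H false a0 b0).card ≤ 2 := by rw [e2]; exact card_le_two
    omega
  obtain ⟨F, f1, f2, f3, f4⟩ := gains S h0 F0 hF ho hb hc0 r M hcount m hM1
  have hvF : (vs F).card ≤ k := by
    have h1 := vs_card_le F
    have : 3 * (8 + 8 * r * m) = 24 + 24 * r * m := by ring
    omega
  obtain ⟨F', g1, g2, g3, g4, g5⟩ := grows S h0 F0 ho hb M k ht k F f1 f2 (by omega) hvF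
    (by omega)
  have hcard : Fintype.card (Ve n) = n + n + n := by
    simp [Fintype.card_prod]; ring
  obtain ⟨U, hU1, hU2⟩ := exists_superset_card_eq (s := vs F') g5 (by rw [hcard]; exact hkn)
  refine ⟨univ.filter (fun x => Sum.inl (false, x) ∈ U), univ.filter (fun y => Sum.inr y ∈ U),
    univ.filter (fun z => Sum.inl (true, z) ∈ U), ?_, ?_⟩
  · rw [← hU2]
    have h1 : U.card = ∑ v : Ve n, if v ∈ U then 1 else 0 := by simp
    rw [h1, Fintype.sum_sum_type, Fintype.sum_prod_type, Fintype.sum_bool]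
    simp only [card_filter]
    ring
  · have hsub : F' ⊆ H.filter (fun h => h.1 ∈ univ.filter (fun x => Sum.inl (false, x) ∈ U) ∧
        h.2.1 ∈ univ.filter (fun y => Sum.inr y ∈ U) ∧
        h.2.2 ∈ univ.filter (fun z => Sum.inl (true, z) ∈ U)) := by
      intro h hh
      simp only [mem_filter, mem_univ, true_and]
      have hv : vert h ⊆ U := (subset_biUnion_of_mem vert hh).trans hU1
      exact ⟨g2 hh, hv (by simp [vert]), hv (by simp [vert]), hv (by simp [vert])⟩
    have h1 := card_le_card hsub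
    unfold exc at f4 g3
    omega

end

/-- Cleaning. -/
theorem clean (B : Finset (Pr n × Pr n)) (t : ℕ) (h1 : (B.image Prod.fst).card ≤ n)
    (h2 : (B.image Prod.snd).card ≤ n) (hB : 2 * t * n < B.card) :
    ∃ C ⊆ B, C.Nonempty ∧ (∀ a b, (a, b) ∈ C → t ≤ (univ.filter (fun c => (c, b) ∈ C)).card) ∧
      (∀ a b, (a, b) ∈ C → t ≤ (univ.filter (fun c => (a, c) ∈ C)).card) := by
  classical
  let Ψ : Finset (Pr n × Pr n) → ℤ := fun C =>
    (C.card : ℤ) - t * ((C.image Prod.fst).card + (C.image Prod.snd).card)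
  obtain ⟨C, hCm, hmax⟩ := exists_max_image B.powerset Ψ ⟨B, mem_powerset_self B⟩
  have hCB : C ⊆ B := mem_powerset.1 hCm
  have hpos : 0 < Ψ B := by
    simp only [Ψ]
    have a1 : ((B.image Prod.fst).card : ℤ) ≤ n := by exact_mod_cast h1
    have a2 : ((B.image Prod.snd).card : ℤ) ≤ n := by exact_mod_cast h2
    have a3 : (2 * t * n : ℤ) < B.card := by exact_mod_cast hB
    have a4 : (0 : ℤ) ≤ t := by positivity
    nlinarith
  have hCpos : 0 < Ψ C := lt_of_lt_of_le hpos (hmax B (mem_powerset_self B))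
  refine ⟨C, hCB, ?_, ?_, ?_⟩
  · rw [nonempty_iff_ne_empty]
    rintro rfl
    simp [Ψ] at hCpos
  · intro a b hab
    by_contra hlt
    push Not at hlt
    have hC' := hmax (C.filter (fun p => p.2 ≠ b))
      (mem_powerset.2 ((filter_subset _ _).trans hCB))
    simp only [Ψ] at hC'
    have c1 : (C.filter (fun p => p.2 = b)).card + (C.filter (fun p => p.2 ≠ b)).card = C.card :=
      card_filter_add_card_filter_not _
    have c2 : (C.filter (fun p => p.2 = b)).card ≤ (univ.filter (fun c => (c, b) ∈ C)).card := by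
      apply card_le_card_of_injOn Prod.fst
      · intro p hp
        obtain ⟨p1, p2⟩ := mem_filter.1 hp
        simp only [coe_filter, mem_univ, true_and, Set.mem_setOf_eq]
        rw [← p2]
        exact p1
      · intro p hp q hq hpq
        have p2 := (mem_filter.1 hp).2
        have q2 := (mem_filter.1 hq).2
        exact Prod.ext hpq (p2.trans q2.symm)
    have c3 : ((C.filter (fun p => p.2 ≠ b)).image Prod.fst).card ≤ (C.image Prod.fst).card :=
      card_le_card (image_subset_image (filter_subset _ _))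
    have c4 : ((C.filter (fun p => p.2 ≠ b)).image Prod.snd).card + 1 ≤
        (C.image Prod.snd).card := by
      have : (C.filter (fun p => p.2 ≠ b)).image Prod.snd ⊆ (C.image Prod.snd).erase b := by
        intro x hx
        obtain ⟨p, hp, rfl⟩ := mem_image.1 hx
        obtain ⟨p1, p2⟩ := mem_filter.1 hp
        exact mem_erase.2 ⟨p2, mem_image_of_mem _ p1⟩
      have h := card_le_card this
      have hb : b ∈ C.image Prod.snd := mem_image.2 ⟨(a, b), hab, rfl⟩
      rw [card_erase_of_mem hb] at h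
      have : 0 < (C.image Prod.snd).card := card_pos.2 ⟨b, hb⟩
      omega
    have d1 : (((C.filter (fun p => p.2 ≠ b)).image Prod.fst).card : ℤ) ≤
      (C.image Prod.fst).card := by exact_mod_cast c3
    have d2 : (((C.filter (fun p => p.2 ≠ b)).image Prod.snd).card : ℤ) + 1 ≤
      (C.image Prod.snd).card := by exact_mod_cast c4
    have d3 : ((C.filter (fun p => p.2 ≠ b)).card : ℤ) + t > C.card := by
      have : (C.filter (fun p => p.2 ≠ b)).card + t > C.card := by omega
      exact_mod_cast this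
    have d4 : (0 : ℤ) ≤ t := by positivity
    nlinarith
  · intro a b hab
    by_contra hlt
    push Not at hlt
    have hC' := hmax (C.filter (fun p => p.1 ≠ a))
      (mem_powerset.2 ((filter_subset _ _).trans hCB))
    simp only [Ψ] at hC'
    have c1 : (C.filter (fun p => p.1 = a)).card + (C.filter (fun p => p.1 ≠ a)).card = C.card :=
      card_filter_add_card_filter_not _
    have c2 : (C.filter (fun p => p.1 = a)).card ≤ (univ.filter (fun c => (a, c) ∈ C)).card := by
      apply card_le_card_of_injOn Prod.snd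
      · intro p hp
        obtain ⟨p1, p2⟩ := mem_filter.1 hp
        simp only [coe_filter, mem_univ, true_and, Set.mem_setOf_eq]
        rw [← p2]
        exact p1
      · intro p hp q hq hpq
        have p2 := (mem_filter.1 hp).2
        have q2 := (mem_filter.1 hq).2
        exact Prod.ext (p2.trans q2.symm) hpq
    have c3 : ((C.filter (fun p => p.1 ≠ a)).image Prod.snd).card ≤ (C.image Prod.snd).card :=
      card_le_card (image_subset_image (filter_subset _ _))
    have c4 : ((C.filter (fun p => p.1 ≠ a)).image Prod.fst).card + 1 ≤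
        (C.image Prod.fst).card := by
      have : (C.filter (fun p => p.1 ≠ a)).image Prod.fst ⊆ (C.image Prod.fst).erase a := by
        intro x hx
        obtain ⟨p, hp, rfl⟩ := mem_image.1 hx
        obtain ⟨p1, p2⟩ := mem_filter.1 hp
        exact mem_erase.2 ⟨p2, mem_image_of_mem _ p1⟩
      have h := card_le_card this
      have hb : a ∈ C.image Prod.fst := mem_image.2 ⟨(a, b), hab, rfl⟩
      rw [card_erase_of_mem hb] at h
      have : 0 < (C.image Prod.fst).card := card_pos.2 ⟨a, hb⟩
      omega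
    have d1 : (((C.filter (fun p => p.1 ≠ a)).image Prod.snd).card : ℤ) ≤
      (C.image Prod.snd).card := by exact_mod_cast c3
    have d2 : (((C.filter (fun p => p.1 ≠ a)).image Prod.fst).card : ℤ) + 1 ≤
      (C.image Prod.fst).card := by exact_mod_cast c4
    have d3 : ((C.filter (fun p => p.1 ≠ a)).card : ℤ) + t > C.card := by
      have : (C.filter (fun p => p.1 ≠ a)).card + t > C.card := by omega
      exact_mod_cast this
    have d4 : (0 : ℤ) ≤ t := by positivity
    nlinarith

/-- From a domino `A0, B0` with many closing pairs to the conclusion. -/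
theorem from_domino [NeZero n] {H : Finset (En n)} (hL : Lat H) {A0 B0 : Pr n}
    (hbase : Dom H false A0 B0) (hnd : A0.1 ≠ A0.2) (B : Finset (Pr n × Pr n))
    (hB : ∀ a b, (a, b) ∈ B → Dom H false a b ∧ Dom H false a B0 ∧ Dom H false A0 b ∧
      a ≠ A0 ∧ b ≠ B0) (t : ℕ) (hcB : 2 * t * n < B.card)
    (k m r M : ℕ) (hkn : k ≤ n + n + n)
    (hcount : 2 * n ^ 2 * ((3 * M) ^ 2) ^ r < (t - 1) ^ r) (ht : (3 * M) ^ 2 < t)
    (hM1 : 8 + 8 * r * m + 4 * r ≤ M) (hM2 : 8 + 8 * r * m + 4 * k ≤ M)
    (hk : 24 + 24 * r * m ≤ k) :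
    ∃ X Y Z : Finset (Fin n), X.card + Y.card + Z.card = k ∧
      k + m ≤ (H.filter (fun h => h.1 ∈ X ∧ h.2.1 ∈ Y ∧ h.2.2 ∈ Z)).card + 19 := by
  classical
  have h1 : (B.image Prod.fst).card ≤ n := by
    have hex : ∀ a ∈ B.image Prod.fst, Dom H false a B0 := by
      intro a ha
      obtain ⟨p, hp, rfl⟩ := mem_image.1 ha
      exact (hB p.1 p.2 hp).2.1
    have : (B.image Prod.fst).card ≤ (univ : Finset (Fin n)).card := by
      apply card_le_card_of_injOn (fun a => if h : Dom H false a B0 then h.choose else 0)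
      · intro _ _; simp
      · intro a ha a' ha' haa
        have e1 := hex a ha
        have e2 := hex a' ha'
        simp only [e1, e2, dif_pos] at haa
        have s1 := e1.choose_spec
        have s2 := e2.choose_spec
        rw [← haa] at s2
        exact Prod.ext (lin3 hL s1.1 s2.1) (lin3 hL s1.2 s2.2)
    simpa using this
  have h2 : (B.image Prod.snd).card ≤ n := by
    have hex : ∀ b ∈ B.image Prod.snd, Dom H false A0 b := by
      intro a ha
      obtain ⟨p, hp, rfl⟩ := mem_image.1 ha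
      exact (hB p.1 p.2 hp).2.2.1
    have : (B.image Prod.snd).card ≤ (univ : Finset (Fin n)).card := by
      apply card_le_card_of_injOn (fun b => if h : Dom H false A0 b then h.choose else 0)
      · intro _ _; simp
      · intro a ha a' ha' haa
        have e1 := hex a ha
        have e2 := hex a' ha'
        simp only [e1, e2, dif_pos] at haa
        have s1 := e1.choose_spec
        have s2 := e2.choose_spec
        rw [← haa] at s2
        exact Prod.ext (lin1 hL s1.1 s2.1) (lin1 hL s1.2 s2.2)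
    simpa using this
  obtain ⟨C, hCB, ⟨⟨a0, b0⟩, hab0⟩, dg1, dg2⟩ := clean B t h1 h2 hcB
  have hndB : B0.1 ≠ B0.2 := by
    obtain ⟨y, y1, y2⟩ := hbase
    intro h
    rw [← h] at y2
    exact hnd (lin3 hL y1 y2)
  let o : Bool → Pr n := fun s => if s then B0 else A0
  have hS : Setup H C o t := by
    refine ⟨hL, ?_, ?_, ?_, ?_, ?_⟩
    · intro s a b h
      cases s
      · exact (hB a b (hCB h)).1
      · exact dom_swap.2 (hB b a (hCB h)).1
    · intro s a b h
      cases s
      · exact (hB a b (hCB h)).2.1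
      · exact dom_swap.2 (hB b a (hCB h)).2.2.1
    · intro s a b h
      cases s
      · exact (hB a b (hCB h)).2.2.2.1
      · exact (hB b a (hCB h)).2.2.2.2
    · intro s a b h
      cases s
      · obtain ⟨y, y1, y2⟩ := (hB a b (hCB h)).2.1
        intro h
        rw [← h] at y2
        exact hndB (lin1 hL y1 y2)
      · obtain ⟨y, y1, y2⟩ := (hB b a (hCB h)).2.2.1
        intro h
        rw [← h] at y2
        exact hnd (lin3 hL y1 y2)
    · intro s a b h
      cases s
      · exact dg1 a b h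
      · exact dg2 b a h
  exact core hS (a0 := a0) (b0 := b0) hab0 hbase k m r M hkn hcount ht hM1 hM2 hk

end Pool.Agent.V11100.CQ
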