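import Mathlib

/-!
# Partial Latin squares: entries, vertices, dominoes and one growth step
-/

set_option autoImplicit false

namespace Pool.Agent.V11100.CQ

open Finset

variable {n : ℕ}

abbrev En (n : ℕ) := Fin n × Fin n × Fin n
abbrev Ve (n : ℕ) := (Bool × Fin n) ⊕ Fin n
abbrev Pr (n : ℕ) := Fin n × Fin n

def e (s : Bool) (u y w : Fin n) : En n := if s then (w, y, u) else (u, y, w)

def vert (h : En n) : Finset (Ve n) :=
  {Sum.inl (false, h.1), Sum.inr h.2.1, Sum.inl (true, h.2.2)}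

def vs (F : Finset (En n)) : Finset (Ve n) := F.biUnion vert

def exc (F : Finset (En n)) : ℤ := (F.card : ℤ) - (vs F).card

def Lat (H : Finset (En n)) : Prop :=
  ∀ g ∈ H, ∀ h ∈ H, (g.1 = h.1 ∧ g.2.1 = h.2.1) ∨ (g.1 = h.1 ∧ g.2.2 = h.2.2) ∨
    (g.2.1 = h.2.1 ∧ g.2.2 = h.2.2) → g = h

def Dom (H : Finset (En n)) (s : Bool) (a b : Pr n) : Prop :=
  ∃ y, e s a.1 y b.1 ∈ H ∧ e s a.2 y b.2 ∈ H

theorem e_inj {s : Bool} {u y w u' y' w' : Fin n} :
    e s u y w = e s u' y' w' ↔ u = u' ∧ y = y' ∧ w = w' := by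
  cases s <;> simp [e] <;> tauto

theorem e_swap (s : Bool) (u y w : Fin n) : e (!s) u y w = e s w y u := by
  cases s <;> simp [e]

theorem mem_vert_e {s : Bool} {u y w : Fin n} {v : Ve n} :
    v ∈ vert (e s u y w) ↔ v = Sum.inl (s, u) ∨ v = Sum.inr y ∨ v = Sum.inl (!s, w) := by
  cases s <;> simp [vert, e] <;> tauto

theorem dom_swap {H : Finset (En n)} {s : Bool} {a b : Pr n} :
    Dom H (!s) b a ↔ Dom H s a b := by
  unfold Dom; simp only [e_swap]

theorem lin1 {H : Finset (En n)} (hL : Lat H) {s : Bool} {u y w w' : Fin n}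
    (h : e s u y w ∈ H) (h' : e s u y w' ∈ H) : w = w' := by
  have : e s u y w = e s u y w' := by
    apply hL _ h _ h'
    cases s <;> simp [e]
  exact (e_inj.1 this).2.2

theorem lin2 {H : Finset (En n)} (hL : Lat H) {s : Bool} {u y y' w : Fin n}
    (h : e s u y w ∈ H) (h' : e s u y' w ∈ H) : y = y' := by
  have : e s u y w = e s u y' w := by
    apply hL _ h _ h'
    cases s <;> simp [e]
  exact (e_inj.1 this).2.1

theorem lin3 {H : Finset (En n)} (hL : Lat H) {s : Bool} {u u' y w : Fin n}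
    (h : e s u y w ∈ H) (h' : e s u' y w ∈ H) : u = u' := by
  have : e s u y w = e s u' y w := by
    apply hL _ h _ h'
    cases s <;> simp [e]
  exact (e_inj.1 this).1

open Classical in
noncomputable def dent (H : Finset (En n)) (s : Bool) (a b : Pr n) : Finset (En n) :=
  H.filter (fun h => ∃ y, e s a.1 y b.1 ∈ H ∧ e s a.2 y b.2 ∈ H ∧
    (h = e s a.1 y b.1 ∨ h = e s a.2 y b.2))

theorem dent_eq {H : Finset (En n)} (hL : Lat H) {s : Bool} {a b : Pr n} {y : Fin n}
    (h1 : e s a.1 y b.1 ∈ H) (h2 : e s a.2 y b.2 ∈ H) :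
    dent H s a b = {e s a.1 y b.1, e s a.2 y b.2} := by
  ext h
  simp only [dent, mem_filter, mem_insert, mem_singleton]
  constructor
  · rintro ⟨-, y', h1', h2', hh⟩
    have := lin2 hL h1 h1'
    subst this
    exact hh
  · intro hh
    refine ⟨?_, y, h1, h2, hh⟩
    rcases hh with rfl | rfl
    · exact h1
    · exact h2

theorem dent_swap {H : Finset (En n)} {s : Bool} {a b : Pr n} :
    dent H (!s) b a = dent H s a b := by
  unfold dent; simp only [e_swap]

theorem dent_sub {H : Finset (En n)} {s : Bool} {a b : Pr n} : dent H s a b ⊆ H :=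
  filter_subset _ _

theorem vs_mono {F G : Finset (En n)} (h : F ⊆ G) : vs F ⊆ vs G := biUnion_subset_biUnion_of_subset_left _ h

theorem vs_union (F G : Finset (En n)) : vs (F ∪ G) = vs F ∪ vs G := by
  ext v; simp [vs, or_and_right, exists_or]

theorem mem_vs_of {G : Finset (En n)} {s : Bool} {u y w : Fin n} (h : e s u y w ∈ G) :
    Sum.inl (s, u) ∈ vs G ∧ Sum.inr y ∈ vs G ∧ Sum.inl (!s, w) ∈ vs G := by
  refine ⟨mem_biUnion.2 ⟨_, h, mem_vert_e.2 (Or.inl rfl)⟩,
    mem_biUnion.2 ⟨_, h, mem_vert_e.2 (Or.inr (Or.inl rfl))⟩,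
    mem_biUnion.2 ⟨_, h, mem_vert_e.2 (Or.inr (Or.inr rfl))⟩⟩

theorem vs_card_le (F : Finset (En n)) : (vs F).card ≤ 3 * F.card := by
  unfold vs
  calc (F.biUnion vert).card ≤ ∑ h ∈ F, (vert h).card := card_biUnion_le
    _ ≤ ∑ h ∈ F, 3 := sum_le_sum (fun h _ => by unfold vert; exact card_le_three)
    _ = 3 * F.card := by rw [sum_const, smul_eq_mul, mul_comm]

theorem card_ins {α : Type} [DecidableEq α] (G : Finset α) (x : α) :
    ∃ i : ℕ, (insert x G).card = G.card + i ∧ i ≤ 1 ∧ (i = 0 ↔ x ∈ G) := by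
  by_cases h : x ∈ G
  · exact ⟨0, by simp [h], by omega, by simp [h]⟩
  · exact ⟨1, by simp [h], by omega, by simp [h]⟩

/-- One growth step. -/
theorem step_exc (G : Finset (En n)) {s : Bool} {c b b' : Pr n} {y y' : Fin n} (hy : y ≠ y')
    (hc : c.1 ≠ c.2) (hb1 : Sum.inl (!s, b.1) ∈ vs G) (hb2 : Sum.inl (!s, b.2) ∈ vs G)
    (hb1' : Sum.inl (!s, b'.1) ∈ vs G) (hb2' : Sum.inl (!s, b'.2) ∈ vs G)
    (A : Finset (En n))
    (hA : A = {e s c.1 y b.1, e s c.2 y b.2, e s c.1 y' b'.1, e s c.2 y' b'.2}) :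
    exc G ≤ exc (G ∪ A) ∧
    (exc (G ∪ A) ≤ exc G → A ⊆ G ∨ (Sum.inl (s, c.1) ∉ vs G ∧ Sum.inl (s, c.2) ∉ vs G)) ∧
    (vs (G ∪ A)).card ≤ (vs G).card + 4 ∧ (G ∪ A).card ≤ G.card + 4 := by
  set e1 := e s c.1 y b.1 with he1
  set e2 := e s c.2 y b.2 with he2
  set e3 := e s c.1 y' b'.1 with he3
  set e4 := e s c.2 y' b'.2 with he4
  have n12 : e1 ≠ e2 := fun h => hc (e_inj.1 h).1
  have n13 : e1 ≠ e3 := fun h => hy (e_inj.1 h).2.1
  have n14 : e1 ≠ e4 := fun h => hc (e_inj.1 h).1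
  have n23 : e2 ≠ e3 := fun h => hc (e_inj.1 h).1.symm
  have n24 : e2 ≠ e4 := fun h => hy (e_inj.1 h).2.1
  have n34 : e3 ≠ e4 := fun h => hc (e_inj.1 h).1
  have hU : G ∪ A = insert e1 (insert e2 (insert e3 (insert e4 G))) := by
    rw [hA]; ext x; simp only [mem_union, mem_insert, mem_singleton]; tauto
  obtain ⟨i4, h4, l4, m4⟩ := card_ins G e4
  obtain ⟨i3, h3, l3, m3⟩ := card_ins (insert e4 G) e3
  obtain ⟨i2, h2, l2, m2⟩ := card_ins (insert e3 (insert e4 G)) e2
  obtain ⟨i1, h1, l1, m1⟩ := card_ins (insert e2 (insert e3 (insert e4 G))) e1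
  simp only [mem_insert, n12, n13, n14, n23, n24, n34, false_or] at m1 m2 m3
  -- vertices
  let p : Ve n := Sum.inl (s, c.1)
  let q : Ve n := Sum.inl (s, c.2)
  let u : Ve n := Sum.inr y
  let w : Ve n := Sum.inr y'
  obtain ⟨jw, hw, lw, mw⟩ := card_ins (vs G) w
  obtain ⟨ju, hu, lu, mu⟩ := card_ins (insert w (vs G)) u
  obtain ⟨jq, hq, lq, mq⟩ := card_ins (insert u (insert w (vs G))) q
  obtain ⟨jp, hp, lp, mp⟩ := card_ins (insert q (insert u (insert w (vs G)))) p
  have npq : p ≠ q := by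
    intro h
    simp only [p, q, Sum.inl.injEq, Prod.mk.injEq, true_and] at h
    exact hc h
  have nuw : u ≠ w := by
    intro h
    simp only [u, w, Sum.inr.injEq] at h
    exact hy h
  have npu : p ≠ u := by simp [p, u]
  have npw : p ≠ w := by simp [p, w]
  have nqu : q ≠ u := by simp [q, u]
  have nqw : q ≠ w := by simp [q, w]
  simp only [mem_insert, npq, nuw, npu, npw, nqu, nqw, false_or] at mp mq mu
  have hG : vs G ⊆ insert p (insert q (insert u (insert w (vs G)))) := fun v hv =>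
    mem_insert_of_mem (mem_insert_of_mem (mem_insert_of_mem (mem_insert_of_mem hv)))
  have hp' : p ∈ insert p (insert q (insert u (insert w (vs G)))) := mem_insert_self _ _
  have hq' : q ∈ insert p (insert q (insert u (insert w (vs G)))) :=
    mem_insert_of_mem (mem_insert_self _ _)
  have hu' : u ∈ insert p (insert q (insert u (insert w (vs G)))) :=
    mem_insert_of_mem (mem_insert_of_mem (mem_insert_self _ _))
  have hw' : w ∈ insert p (insert q (insert u (insert w (vs G)))) :=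
    mem_insert_of_mem (mem_insert_of_mem (mem_insert_of_mem (mem_insert_self _ _)))
  have hV : vs (G ∪ A) ⊆ insert p (insert q (insert u (insert w (vs G)))) := by
    intro v hv
    rw [vs_union, mem_union] at hv
    rcases hv with hv | hv
    · exact hG hv
    · obtain ⟨g, hg, hvg⟩ := mem_biUnion.1 hv
      rw [hA, mem_insert, mem_insert, mem_insert, mem_singleton] at hg
      rcases hg with rfl | rfl | rfl | rfl
      · rcases mem_vert_e.1 hvg with h | h | h
        · rw [h]; exact hp'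
        · rw [h]; exact hu'
        · rw [h]; exact hG hb1
      · rcases mem_vert_e.1 hvg with h | h | h
        · rw [h]; exact hq'
        · rw [h]; exact hu'
        · rw [h]; exact hG hb2
      · rcases mem_vert_e.1 hvg with h | h | h
        · rw [h]; exact hp'
        · rw [h]; exact hw'
        · rw [h]; exact hG hb1'
      · rcases mem_vert_e.1 hvg with h | h | h
        · rw [h]; exact hq'
        · rw [h]; exact hw'
        · rw [h]; exact hG hb2'
  have hVc := card_le_card hV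
  have c1 : i1 = 0 → jp = 0 ∧ ju = 0 := fun h =>
    ⟨mp.2 (mem_vs_of (m1.1 h)).1, mu.2 (mem_vs_of (m1.1 h)).2.1⟩
  have c2 : i2 = 0 → jq = 0 ∧ ju = 0 := fun h =>
    ⟨mq.2 (mem_vs_of (m2.1 h)).1, mu.2 (mem_vs_of (m2.1 h)).2.1⟩
  have c3 : i3 = 0 → jp = 0 ∧ jw = 0 := fun h =>
    ⟨mp.2 (mem_vs_of (m3.1 h)).1, mw.2 (mem_vs_of (m3.1 h)).2.1⟩
  have c4 : i4 = 0 → jq = 0 ∧ jw = 0 := fun h =>
    ⟨mq.2 (mem_vs_of (m4.1 h)).1, mw.2 (mem_vs_of (m4.1 h)).2.1⟩
  have hcard : (G ∪ A).card = G.card + (i1 + i2 + i3 + i4) := by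
    rw [hU, h1, h2, h3, h4]; ring
  have hvc : (vs (G ∪ A)).card ≤ (vs G).card + (jp + jq + ju + jw) := by
    rw [hp, hq, hu, hw] at hVc; omega
  refine ⟨?_, ?_, ?_, ?_⟩
  · unfold exc; omega
  · intro hle
    unfold exc at hle
    have : (i1 = 0 ∧ i2 = 0 ∧ i3 = 0 ∧ i4 = 0) ∨ (jp = 1 ∧ jq = 1) := by omega
    rcases this with ⟨z1, z2, z3, z4⟩ | ⟨z1, z2⟩
    · left
      rw [hA]
      intro x hx
      simp only [mem_insert, mem_singleton] at hx
      rcases hx with rfl | rfl | rfl | rfl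
      · exact m1.1 z1
      · exact m2.1 z2
      · exact m3.1 z3
      · exact m4.1 z4
    · right
      refine ⟨fun h => ?_, fun h => ?_⟩
      · have := mp.2 h; omega
      · have := mq.2 h; omega
  · omega
  · omega

end Pool.Agent.V11100.CQ
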