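import Pool.Agent.V11100.CQ.Base

/-!
# Walks of pairs and the gain of one edge
-/

set_option autoImplicit false

namespace Pool.Agent.V11100.CQ

open Finset

variable {n : ℕ}

def Cr (C : Finset (Pr n × Pr n)) (s : Bool) (a b : Pr n) : Prop :=
  if s then (b, a) ∈ C else (a, b) ∈ C

instance (C : Finset (Pr n × Pr n)) (s : Bool) (a b : Pr n) : Decidable (Cr C s a b) := by
  unfold Cr; infer_instance

theorem cr_swap {C : Finset (Pr n × Pr n)} {s : Bool} {a b : Pr n} :
    Cr C (!s) b a ↔ Cr C s a b := by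
  cases s <;> simp [Cr]

structure Setup (H : Finset (En n)) (C : Finset (Pr n × Pr n)) (o : Bool → Pr n) (t : ℕ) :
    Prop where
  lat : Lat H
  dom : ∀ s a b, Cr C s a b → Dom H s a b
  domo : ∀ s a b, Cr C s a b → Dom H s a (o !s)
  neo : ∀ s a b, Cr C s a b → a ≠ o s
  nd : ∀ s a b, Cr C s a b → a.1 ≠ a.2
  deg : ∀ s a b, Cr C s a b → t ≤ (univ.filter (fun c => Cr C s c b)).card

def pv (s : Bool) (p : Pr n) : Finset (Ve n) := {Sum.inl (s, p.1), Sum.inl (s, p.2)}

noncomputable def Ad (H : Finset (En n)) (o : Bool → Pr n) (s : Bool) (c b : Pr n) :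
    Finset (En n) := dent H s c b ∪ dent H s c (o !s)

variable {H : Finset (En n)} {C : Finset (Pr n × Pr n)} {o : Bool → Pr n} {t : ℕ}

theorem Ad_eq (S : Setup H C o t) {s : Bool} {c b : Pr n} (h : Cr C s c b) :
    ∃ y y', y ≠ y' ∧ e s c.1 y b.1 ∈ H ∧ e s c.2 y b.2 ∈ H ∧ e s c.1 y' (o !s).1 ∈ H ∧
      e s c.2 y' (o !s).2 ∈ H ∧
      Ad H o s c b = {e s c.1 y b.1, e s c.2 y b.2, e s c.1 y' (o !s).1, e s c.2 y' (o !s).2} := by
  obtain ⟨y, h1, h2⟩ := S.dom s c b h
  obtain ⟨y', h1', h2'⟩ := S.domo s c b h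
  refine ⟨y, y', ?_, h1, h2, h1', h2', ?_⟩
  · rintro rfl
    have hb : b ≠ o (!s) := S.neo (!s) b c (cr_swap.2 h)
    exact hb (Prod.ext (lin1 S.lat h1 h1') (lin1 S.lat h2 h2'))
  · unfold Ad
    rw [dent_eq S.lat h1 h2, dent_eq S.lat h1' h2']
    ext x; simp only [mem_union, mem_insert, mem_singleton]; tauto

theorem Ad_sub {s : Bool} {c b : Pr n} : Ad H o s c b ⊆ H :=
  union_subset dent_sub dent_sub

theorem Ad_card (S : Setup H C o t) {s : Bool} {c b : Pr n} (h : Cr C s c b) :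
    (Ad H o s c b).card ≤ 4 := by
  obtain ⟨y, y', -, -, -, -, -, hA⟩ := Ad_eq S h
  rw [hA]; exact card_le_four

theorem pv_sub {s : Bool} {p : Pr n} {W : Finset (Ve n)} :
    pv s p ⊆ W ↔ Sum.inl (s, p.1) ∈ W ∧ Sum.inl (s, p.2) ∈ W := by
  unfold pv
  constructor
  · intro h
    exact ⟨h (by simp), h (by simp)⟩
  · rintro ⟨h1, h2⟩ v hv
    simp only [mem_insert, mem_singleton] at hv
    rcases hv with rfl | rfl
    · exact h1
    · exact h2

theorem step (S : Setup H C o t) {s : Bool} {c b : Pr n} (h : Cr C s c b) (G : Finset (En n))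
    (hb : pv (!s) b ⊆ vs G) (ho : pv (!s) (o !s) ⊆ vs G) :
    exc G ≤ exc (G ∪ Ad H o s c b) ∧
    (exc (G ∪ Ad H o s c b) ≤ exc G → Ad H o s c b ⊆ G ∨
      (Sum.inl (s, c.1) ∉ vs G ∧ Sum.inl (s, c.2) ∉ vs G)) ∧
    (vs (G ∪ Ad H o s c b)).card ≤ (vs G).card + 4 ∧
    (G ∪ Ad H o s c b).card ≤ G.card + 4 ∧ pv s c ⊆ vs (G ∪ Ad H o s c b) := by
  obtain ⟨y, y', hy, h1, h2, h1', h2', hA⟩ := Ad_eq S h
  rw [pv_sub] at hb ho
  obtain ⟨r1, r2, r3, r4⟩ := step_exc G (b := b) (b' := o !s) hy (S.nd s c b h) hb.1 hb.2 ho.1 ho.2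
    (Ad H o s c b) hA
  refine ⟨r1, r2, r3, r4, ?_⟩
  rw [pv_sub]
  have m1 : e s c.1 y b.1 ∈ G ∪ Ad H o s c b := by rw [hA]; simp
  have m2 : e s c.2 y b.2 ∈ G ∪ Ad H o s c b := by rw [hA]; simp
  exact ⟨(mem_vs_of m1).1, (mem_vs_of m2).1⟩

theorem collision (S : Setup H C o t) {s : Bool} {c b d : Pr n} (h : Cr C s c b)
    {G : Finset (En n)} (n1 : Sum.inl (s, c.1) ∉ vs G) (n2 : Sum.inl (s, c.2) ∉ vs G)
    (hd : Dom H (!s) d c) (hsub : dent H (!s) d c ⊆ G ∪ Ad H o s c b) :
    d = b ∨ d = o (!s) := by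
  obtain ⟨y, y', hy, -, -, -, -, hA⟩ := Ad_eq S h
  have hc := S.nd s c b h
  obtain ⟨y'', g1, g2⟩ := dom_swap.1 hd
  rw [dent_swap, dent_eq S.lat g1 g2] at hsub
  have k1 : e s c.1 y'' d.1 ∈ Ad H o s c b := by
    rcases mem_union.1 (hsub (mem_insert_self _ _)) with hh | hh
    · exact absurd (mem_vs_of hh).1 n1
    · exact hh
  have k2 : e s c.2 y'' d.2 ∈ Ad H o s c b := by
    rcases mem_union.1 (hsub (mem_insert_of_mem (mem_singleton_self _))) with hh | hh
    · exact absurd (mem_vs_of hh).1 n2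
    · exact hh
  rw [hA] at k1 k2
  simp only [mem_insert, mem_singleton, e_inj, hc, hc.symm, false_and, true_and, false_or,
    or_false] at k1 k2
  rcases k1 with ⟨p1, p2⟩ | ⟨p1, p2⟩ <;> rcases k2 with ⟨q1, q2⟩ | ⟨q1, q2⟩
  · exact Or.inl (Prod.ext p2 q2)
  · exact absurd (p1.symm.trans q1) hy
  · exact absurd (q1.symm.trans p1) hy
  · exact Or.inr (Prod.ext p2 q2)

def Valid (C : Finset (Pr n × Pr n)) : Bool → Pr n → Pr n → List (Pr n) → Prop
  | _, _, _, [] => True
  | s, a, b, c :: l => c ≠ a ∧ Cr C s c b ∧ Valid C (!s) b c l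

noncomputable def ent (H : Finset (En n)) (o : Bool → Pr n) :
    Bool → Pr n → List (Pr n) → Finset (En n)
  | _, _, [] => ∅
  | s, b, c :: l => Ad H o s c b ∪ ent H o (!s) c l

def fin : Bool → Pr n → List (Pr n) → Bool × Pr n
  | s, b, [] => (s, b)
  | s, _, c :: l => fin (!s) c l

theorem ent_sub : ∀ (l : List (Pr n)) (s : Bool) (b : Pr n), ent H o s b l ⊆ H
  | [], _, _ => by simp [ent]
  | c :: l, s, b => union_subset Ad_sub (ent_sub l _ _)

theorem null (S : Setup H C o t) : ∀ (l : List (Pr n)) (s : Bool) (a b : Pr n)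
    (G : Finset (En n)), Valid C s a b l → (∀ s, pv s (o s) ⊆ vs G) →
    pv (!s) b ⊆ vs G → pv (!(fin s b l).1) (fin s b l).2 ⊆ vs G →
    (∀ G', G ⊆ G' → G' ⊆ G ∪ ent H o s b l → exc G' ≤ exc G) → ent H o s b l ⊆ G
  | [], s, a, b, G => by intro _ _ _ _ _; simp [ent]
  | c :: l, s, a, b, G => by
    intro hV ho hb hf hbd
    obtain ⟨hca, hcr, hV'⟩ := hV
    obtain ⟨st1, st2, -, -, st5⟩ := step S hcr G hb (ho (!s))
    have hsubG : G ⊆ G ∪ Ad H o s c b := subset_union_left
    have hsub2 : G ∪ Ad H o s c b ⊆ G ∪ ent H o s b (c :: l) := by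
      apply union_subset_union_right
      exact subset_union_left
    have hle : exc (G ∪ Ad H o s c b) ≤ exc G := hbd _ hsubG hsub2
    have hE : ent H o (!s) c l ⊆ G ∪ Ad H o s c b := by
      apply null S l (!s) b c (G ∪ Ad H o s c b) hV' (fun s => (ho s).trans (vs_mono hsubG))
      · rw [Bool.not_not]; exact st5
      · exact hf.trans (vs_mono hsubG)
      · intro G' h1 h2
        refine (hbd G' (hsubG.trans h1) (h2.trans ?_)).trans st1
        show G ∪ Ad H o s c b ∪ ent H o (!s) c l ⊆ G ∪ (Ad H o s c b ∪ ent H o (!s) c l)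
        rw [union_assoc]
    rcases st2 hle with hA | ⟨n1, n2⟩
    · show Ad H o s c b ∪ ent H o (!s) c l ⊆ G
      rw [union_eq_left.2 hA] at hE
      exact union_subset hA hE
    · exfalso
      cases l with
      | nil =>
        have : pv (!(!s)) c ⊆ vs G := hf
        rw [Bool.not_not, pv_sub] at this
        exact n1 this.1
      | cons d l =>
        obtain ⟨hdb, hdc, -⟩ := hV'
        have hsd : dent H (!s) d c ⊆ G ∪ Ad H o s c b := by
          refine subset_trans ?_ hE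
          show dent H (!s) d c ⊆ (dent H (!s) d c ∪ dent H (!s) d (o !(!s))) ∪ _
          exact subset_union_left.trans subset_union_left
        rcases collision S hcr n1 n2 (S.dom _ _ _ hdc) hsd with h | h
        · exact hdb h
        · exact S.neo _ _ _ hdc h

theorem walk_facts (S : Setup H C o t) : ∀ (l : List (Pr n)) (s : Bool) (a b : Pr n)
    (G : Finset (En n)), Valid C s a b l → (∀ s, pv s (o s) ⊆ vs G) → pv (!s) b ⊆ vs G →
    exc G ≤ exc (G ∪ ent H o s b l) ∧ (ent H o s b l).card ≤ 4 * l.length ∧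
      pv (!(fin s b l).1) (fin s b l).2 ⊆ vs (G ∪ ent H o s b l) ∧
      (∀ c ∈ l, ∃ s', pv s' c ⊆ vs (G ∪ ent H o s b l))
  | [], s, a, b, G => by
    intro _ _ hb
    simpa [ent, fin] using hb
  | c :: l, s, a, b, G => by
    intro hV ho hb
    obtain ⟨hca, hcr, hV'⟩ := hV
    obtain ⟨st1, st2, -, -, st5⟩ := step S hcr G hb (ho (!s))
    have hsubG : G ⊆ G ∪ Ad H o s c b := subset_union_left
    obtain ⟨w1, w2, w3, w4⟩ := walk_facts S l (!s) b c (G ∪ Ad H o s c b) hV'
      (fun s => (ho s).trans (vs_mono hsubG)) (by rw [Bool.not_not]; exact st5)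
    have hEq : G ∪ ent H o s b (c :: l) = G ∪ Ad H o s c b ∪ ent H o (!s) c l := by
      show G ∪ (Ad H o s c b ∪ ent H o (!s) c l) = _
      rw [union_assoc]
    rw [hEq]
    refine ⟨st1.trans w1, ?_, w3, ?_⟩
    · show (Ad H o s c b ∪ ent H o (!s) c l).card ≤ _
      have := card_union_le (Ad H o s c b) (ent H o (!s) c l)
      have := Ad_card S hcr
      simp only [List.length_cons]
      omega
    · intro d hd
      rcases List.mem_cons.1 hd with rfl | hd
      · exact ⟨s, st5.trans (vs_mono subset_union_left)⟩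
      · exact w4 d hd

def W (C : Finset (Pr n × Pr n)) : ℕ → Bool → Pr n → Pr n → Finset (List (Pr n))
  | 0, _, _, _ => {[]}
  | r + 1, s, a, b => (univ.filter (fun c => c ≠ a ∧ Cr C s c b)).biUnion
      (fun c => (W C r (!s) b c).image (List.cons c))

theorem mem_W : ∀ (r : ℕ) (s : Bool) (a b : Pr n) (l : List (Pr n)), l ∈ W C r s a b →
    Valid C s a b l ∧ l.length = r
  | 0, s, a, b, l => by
    intro h
    simp only [W, mem_singleton] at h
    subst h
    exact ⟨trivial, rfl⟩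
  | r + 1, s, a, b, l => by
    intro h
    simp only [W, mem_biUnion, mem_filter, mem_univ, true_and, mem_image] at h
    obtain ⟨c, ⟨h1, h2⟩, l', hl', rfl⟩ := h
    obtain ⟨i1, i2⟩ := mem_W r (!s) b c l' hl'
    exact ⟨⟨h1, h2, i1⟩, by simp [i2]⟩

theorem card_W (S : Setup H C o t) : ∀ (r : ℕ) (s : Bool) (a b : Pr n), Cr C s a b →
    (t - 1) ^ r ≤ (W C r s a b).card
  | 0, s, a, b => by intro _; simp [W]
  | r + 1, s, a, b => by
    intro h
    simp only [W]
    rw [card_biUnion]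
    · calc (t - 1) ^ (r + 1) = (t - 1) * (t - 1) ^ r := by ring
        _ ≤ (univ.filter (fun c => c ≠ a ∧ Cr C s c b)).card * (t - 1) ^ r := by
          apply Nat.mul_le_mul_right
          have h1 := S.deg s a b h
          have h2 : univ.filter (fun c => c ≠ a ∧ Cr C s c b) =
              (univ.filter (fun c => Cr C s c b)).erase a := by
            ext c; simp only [mem_filter, mem_univ, true_and, mem_erase]
          rw [h2]
          have := pred_card_le_card_erase (s := univ.filter (fun c => Cr C s c b)) (a := a)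
          omega
        _ = ∑ c ∈ univ.filter (fun c => c ≠ a ∧ Cr C s c b), (t - 1) ^ r := by
          rw [sum_const, smul_eq_mul]
        _ ≤ _ := by
          apply sum_le_sum
          intro c hc
          rw [card_image_of_injective _ (List.cons_injective)]
          exact card_W S r (!s) b c (cr_swap.2 (mem_filter.1 hc).2.2)
    · intro c _ d _ hcd
      rw [Function.onFun, disjoint_left]
      intro l h1 h2
      obtain ⟨l1, -, rfl⟩ := mem_image.1 h1
      obtain ⟨l2, -, h⟩ := mem_image.1 h2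
      exact hcd (List.cons.inj h).1.symm

def LL (Q : Finset (Pr n)) : ℕ → Finset (List (Pr n))
  | 0 => {[]}
  | r + 1 => (Q ×ˢ LL Q r).image (fun p => p.1 :: p.2)

theorem card_LL (Q : Finset (Pr n)) : ∀ r, (LL Q r).card ≤ Q.card ^ r
  | 0 => by simp [LL]
  | r + 1 => by
    simp only [LL]
    refine card_image_le.trans ?_
    rw [card_product, pow_succ, mul_comm]
    exact Nat.mul_le_mul_right _ (card_LL Q r)

theorem mem_LL (Q : Finset (Pr n)) : ∀ (r : ℕ) (l : List (Pr n)), l.length = r →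
    (∀ c ∈ l, c ∈ Q) → l ∈ LL Q r
  | 0, l => by
    intro h _
    rw [List.length_eq_zero_iff] at h
    simp [LL, h]
  | r + 1, l => by
    intro h hQ
    cases l with
    | nil => simp at h
    | cons c l =>
      simp only [LL, mem_image, mem_product]
      refine ⟨(c, l), ⟨hQ c (by simp), mem_LL Q r l (by simpa using h)
        (fun d hd => hQ d (by simp [hd]))⟩, rfl⟩

open Classical in
noncomputable def Qs (G : Finset (En n)) : Finset (Pr n) :=
  univ.filter (fun c => ∃ s, pv s c ⊆ vs G)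

def num [NeZero n] : Ve n → Fin n
  | Sum.inl (_, u) => u
  | Sum.inr y => y

theorem card_Qs [NeZero n] (G : Finset (En n)) : (Qs G).card ≤ (vs G).card ^ 2 := by
  have : Qs G ⊆ ((vs G) ×ˢ (vs G)).image (fun v => ((num v.1, num v.2) : Pr n)) := by
    intro c hc
    simp only [Qs, mem_filter, mem_univ, true_and] at hc
    obtain ⟨s, hs⟩ := hc
    rw [pv_sub] at hs
    rw [mem_image]
    exact ⟨(Sum.inl (s, c.1), Sum.inl (s, c.2)), mem_product.2 ⟨hs.1, hs.2⟩, rfl⟩
  refine (card_le_card this).trans (card_image_le.trans ?_)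
  rw [card_product, sq]

/-- A gain of one edge. -/
theorem gain [NeZero n] (S : Setup H C o t) {a0 b0 : Pr n} (h0 : Cr C false a0 b0)
    (F : Finset (En n)) (hF : F ⊆ H) (ho : ∀ s, pv s (o s) ⊆ vs F) (hb : pv true b0 ⊆ vs F)
    (r M : ℕ) (hM : F.card + 4 * r ≤ M)
    (hcount : 2 * n ^ 2 * ((3 * M) ^ 2) ^ r < (t - 1) ^ r) :
    ∃ F', F ⊆ F' ∧ F' ⊆ H ∧ F'.card ≤ F.card + 8 * r ∧ exc F + 1 ≤ exc F' := by
  by_contra hcon
  push Not at hcon
  have hW := card_W S r false a0 b0 h0
  have hcu : (univ : Finset (Bool × Pr n)).card = 2 * n ^ 2 := by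
    simp [Fintype.card_prod, sq]
  obtain ⟨τ, -, hτ⟩ := exists_lt_card_fiber_of_mul_lt_card_of_maps_to
    (s := W C r false a0 b0) (t := (univ : Finset (Bool × Pr n)))
    (f := fun l => fin false b0 l) (n := ((3 * M) ^ 2) ^ r)
    (fun l _ => mem_univ _) (by rw [hcu]; omega)
  obtain ⟨l0, hl0⟩ := card_pos.1 (lt_of_le_of_lt (Nat.zero_le _) hτ)
  obtain ⟨hl0W, hl0f⟩ := mem_filter.1 hl0
  obtain ⟨hV0, hlen0⟩ := mem_W r false a0 b0 l0 hl0W
  obtain ⟨w1, w2, w3, w4⟩ := walk_facts S l0 false a0 b0 F hV0 ho hb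
  have hF1M : (F ∪ ent H o false b0 l0).card ≤ M := by
    have := card_union_le F (ent H o false b0 l0)
    omega
  have hF1v : (vs (F ∪ ent H o false b0 l0)).card ≤ 3 * M := by
    have := vs_card_le (F ∪ ent H o false b0 l0)
    omega
  have hsub : (W C r false a0 b0).filter (fun l => fin false b0 l = τ) ⊆
      LL (Qs (F ∪ ent H o false b0 l0)) r := by
    intro l hl
    obtain ⟨hlW, hlf⟩ := mem_filter.1 hl
    obtain ⟨hV, hlen⟩ := mem_W r false a0 b0 l hlW
    have hFF : F ⊆ F ∪ ent H o false b0 l0 := subset_union_left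
    have ho1 : ∀ s, pv s (o s) ⊆ vs (F ∪ ent H o false b0 l0) :=
      fun s => (ho s).trans (vs_mono hFF)
    have hb1 : pv true b0 ⊆ vs (F ∪ ent H o false b0 l0) := hb.trans (vs_mono hFF)
    obtain ⟨u1, u2, u3, u4⟩ := walk_facts S l false a0 b0 _ hV ho1 hb1
    have hnull : ent H o false b0 l ⊆ F ∪ ent H o false b0 l0 := by
      apply null S l false a0 b0 _ hV ho1 hb1
      · rw [hlf, ← hl0f]; exact w3
      · intro G' g1 g2
        have : exc G' < exc F + 1 := by
          apply hcon G' (hFF.trans g1)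
          · exact g2.trans (union_subset (union_subset hF (ent_sub _ _ _)) (ent_sub _ _ _))
          · have c1 := card_le_card g2
            have c2 := card_union_le (F ∪ ent H o false b0 l0) (ent H o false b0 l)
            have c3 := card_union_le F (ent H o false b0 l0)
            omega
        omega
    rw [union_eq_left.2 hnull] at u4
    apply mem_LL _ r l hlen
    intro c hc
    simp only [Qs, mem_filter, mem_univ, true_and]
    exact u4 c hc
  have h1 := (card_le_card hsub).trans (card_LL _ r)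
  have h2 : (Qs (F ∪ ent H o false b0 l0)).card ≤ (3 * M) ^ 2 :=
    (card_Qs _).trans (Nat.pow_le_pow_left hF1v 2)
  have h3 := Nat.pow_le_pow_left h2 r
  omega

/-- A step that adds vertices. -/
theorem grow [NeZero n] (S : Setup H C o t) {a0 b0 : Pr n} (h0 : Cr C false a0 b0)
    (F : Finset (En n)) (hF : F ⊆ H) (ho : ∀ s, pv s (o s) ⊆ vs F) (hb : pv true b0 ⊆ vs F)
    (M : ℕ) (hM : F.card ≤ M) (ht : (3 * M) ^ 2 < t) :
    ∃ F', F ⊆ F' ∧ F' ⊆ H ∧ F'.card ≤ F.card + 4 ∧ exc F ≤ exc F' ∧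
      (vs F).card < (vs F').card ∧ (vs F').card ≤ (vs F).card + 4 := by
  have hd := S.deg false a0 b0 h0
  have hv : (vs F).card ≤ 3 * M := (vs_card_le F).trans (by omega)
  have hq : (Qs F).card ≤ (3 * M) ^ 2 := (card_Qs F).trans (Nat.pow_le_pow_left hv 2)
  obtain ⟨c, hc1, hc2⟩ : ∃ c ∈ univ.filter (fun c => Cr C false c b0), c ∉ Qs F := by
    by_contra hcon
    push Not at hcon
    have := card_le_card (s := univ.filter (fun c => Cr C false c b0)) (t := Qs F) hcon
    omega
  have hcr : Cr C false c b0 := (mem_filter.1 hc1).2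
  obtain ⟨s1, -, s3, s4, s5⟩ := step S hcr F hb (ho true)
  refine ⟨F ∪ Ad H o false c b0, subset_union_left, union_subset hF Ad_sub, s4, s1, ?_, s3⟩
  apply card_lt_card
  refine ⟨vs_mono subset_union_left, fun hh => hc2 ?_⟩
  simp only [Qs, mem_filter, mem_univ, true_and]
  exact ⟨false, s5.trans hh⟩

end Pool.Agent.V11100.CQ
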